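import Mathlib

/-!
Test-free propositional dynamic logic does not have the Craig interpolation property.
-/

universe u

namespace Pool.Agent.Results.MP_7a64d7_lc.NoTestFreeInterpolant

/-- Test-free programs: regular expressions over atomic programs. -/
inductive Prog : Type
  | atom (a : ℕ) : Prog
  | seq (α β : Prog) : Prog
  | choice (α β : Prog) : Prog
  | star (α : Prog) : Prog

/-- Formulas of test-free PDL. -/
inductive Form : Type
  | letter (p : ℕ) : Form
  | bot : Form
  | neg (φ : Form) : Form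
  | conj (φ ψ : Form) : Form
  | box (α : Prog) (φ : Form) : Form

/-- Kripke models: one relation for each atomic program and a valuation. -/
structure Model where
  W : Type u
  rel : ℕ → W → W → Prop
  val : ℕ → W → Prop

/-- The relation denoted by a program. -/
def Prog.den (M : Model.{u}) : Prog → M.W → M.W → Prop
  | .atom a => M.rel a
  | .seq α β => fun x y => ∃ z, α.den M x z ∧ β.den M z y
  | .choice α β => fun x y => α.den M x y ∨ β.den M x y
  | .star α => Relation.ReflTransGen (α.den M)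

/-- Truth of a formula at a state of a model. -/
def Form.holds (M : Model.{u}) : Form → M.W → Prop
  | .letter p => M.val p
  | .bot => fun _ => False
  | .neg φ => fun x => ¬ φ.holds M x
  | .conj φ ψ => fun x => φ.holds M x ∧ ψ.holds M x
  | .box α φ => fun x => ∀ y, α.den M x y → φ.holds M y

/-- Implication, as an abbreviation. -/
def Form.imp (φ ψ : Form) : Form := .neg (.conj φ (.neg ψ))

/-- A formula is valid if it is true at every state of every model. -/
def Form.Valid (φ : Form) : Prop := ∀ (M : Model.{u}) (x : M.W), φ.holds M x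

/-- Atomic programs occurring in a program. -/
def Prog.atoms : Prog → Set ℕ
  | .atom a => {a}
  | .seq α β => α.atoms ∪ β.atoms
  | .choice α β => α.atoms ∪ β.atoms
  | .star α => α.atoms

/-- Atomic programs occurring in a formula. -/
def Form.atoms : Form → Set ℕ
  | .letter _ => ∅
  | .bot => ∅
  | .neg φ => φ.atoms
  | .conj φ ψ => φ.atoms ∪ ψ.atoms
  | .box α φ => α.atoms ∪ φ.atoms

/-- Proposition letters occurring in a formula. -/
def Form.letters : Form → Set ℕ
  | .letter p => {p}
  | .bot => ∅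
  | .neg φ => φ.letters
  | .conj φ ψ => φ.letters ∪ ψ.letters
  | .box _ φ => φ.letters

theorem holds_imp (M : Model.{u}) (φ ψ : Form) (x : M.W) :
    (φ.imp ψ).holds M x ↔ (φ.holds M x → ψ.holds M x) := by
  simp only [Form.imp, Form.holds, not_and, not_not]

/-! ### Eventually periodic sets -/

/-- `S` is eventually periodic with period `B`. -/
def EP (B : ℕ) (S : Set ℕ) : Prop := ∃ N, ∀ n, N ≤ n → (n ∈ S ↔ n + B ∈ S)

theorem EP.mul {B : ℕ} {S : Set ℕ} (h : EP B S) (c : ℕ) : EP (B * c) S := by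
  obtain ⟨N, hN⟩ := h
  refine ⟨N, fun n hn => ?_⟩
  induction c with
  | zero => simp
  | succ c ih =>
    rw [ih, hN (n + B * c) (by omega)]
    rw [show n + B * c + B = n + B * (c + 1) by ring]

theorem EP.mul' {B : ℕ} {S : Set ℕ} (h : EP B S) (c : ℕ) : EP (c * B) S := by
  rw [mul_comm]; exact h.mul c

theorem EP.compl {B : ℕ} {S : Set ℕ} (h : EP B S) : EP B Sᶜ := by
  obtain ⟨N, hN⟩ := h
  exact ⟨N, fun n hn => not_congr (hN n hn)⟩

theorem EP.inter {B : ℕ} {S T : Set ℕ} (h : EP B S) (h' : EP B T) : EP B (S ∩ T) := by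
  obtain ⟨N, hN⟩ := h
  obtain ⟨N', hN'⟩ := h'
  exact ⟨max N N', fun n hn => and_congr (hN n (le_trans (le_max_left _ _) hn))
    (hN' n (le_trans (le_max_right _ _) hn))⟩

theorem EP.union {B : ℕ} {S T : Set ℕ} (h : EP B S) (h' : EP B T) : EP B (S ∪ T) := by
  obtain ⟨N, hN⟩ := h
  obtain ⟨N', hN'⟩ := h'
  exact ⟨max N N', fun n hn => or_congr (hN n (le_trans (le_max_left _ _) hn))
    (hN' n (le_trans (le_max_right _ _) hn))⟩

/-- The sumset of two sets of natural numbers. -/
def sumset (S T : Set ℕ) : Set ℕ := {n | ∃ s ∈ S, ∃ t ∈ T, s + t = n}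

theorem EP.sumset {B : ℕ} {S T : Set ℕ} (h : EP B S) (h' : EP B T) :
    EP B (sumset S T) := by
  obtain ⟨N, hN⟩ := h
  obtain ⟨N', hN'⟩ := h'
  refine ⟨2 * (N + N') + B, fun n hn => ?_⟩
  constructor
  · rintro ⟨s, hs, t, ht, rfl⟩
    rcases le_or_gt N s with h1 | h1
    · exact ⟨s + B, (hN s h1).1 hs, t, ht, by omega⟩
    · exact ⟨s, hs, t + B, (hN' t (by omega)).1 ht, by omega⟩
  · rintro ⟨s, hs, t, ht, hst⟩
    rcases le_or_gt (N + B) s with h1 | h1
    · refine ⟨s - B, (hN (s - B) (by omega)).2 ?_, t, ht, by omega⟩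
      rwa [Nat.sub_add_cancel (by omega)]
    · refine ⟨s, hs, t - B, (hN' (t - B) (by omega)).2 ?_, by omega⟩
      rwa [Nat.sub_add_cancel (by omega)]

theorem EP.closed {d : ℕ} (hd : 0 < d) {S : Set ℕ} (h : ∀ n ∈ S, n + d ∈ S) : EP d S := by
  classical
  let m : ℕ → ℕ := fun i => if hi : ∃ s ∈ S, s % d = i then hi.choose else 0
  refine ⟨(Finset.range d).sup m, fun n hn => ⟨h n, fun hnd => ?_⟩⟩
  have hex : ∃ s ∈ S, s % d = n % d := ⟨n + d, hnd, by simp⟩
  have hm : m (n % d) = hex.choose := dif_pos hex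
  have hle : m (n % d) ≤ n :=
    le_trans (Finset.le_sup (f := m) (Finset.mem_range.2 (Nat.mod_lt n hd))) hn
  have hmem : m (n % d) ∈ S := by rw [hm]; exact hex.choose_spec.1
  have hmod : m (n % d) % d = n % d := by rw [hm]; exact hex.choose_spec.2
  have key : ∀ q, m (n % d) + q * d ∈ S := by
    intro q
    induction q with
    | zero => simpa using hmem
    | succ q ih =>
      have := h _ ih
      rwa [show m (n % d) + q * d + d = m (n % d) + (q + 1) * d by ring] at this
  have h1 : d ∣ n - m (n % d) := (Nat.modEq_iff_dvd' hle).1 hmod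
  obtain ⟨q, hq⟩ := h1
  have := key q
  rwa [show m (n % d) + q * d = n by rw [mul_comm q d, ← hq]; omega] at this

/-! ### Programs on the counting model -/

/-- The set of lengths of the words of a program. -/
def Prog.len : Prog → Set ℕ
  | .atom _ => {1}
  | .seq α β => sumset α.len β.len
  | .choice α β => α.len ∪ β.len
  | .star α => (AddSubmonoid.closure α.len : Set ℕ)

theorem Prog.exists_EP (α : Prog) : ∃ B, 0 < B ∧ EP B α.len := by
  induction α with
  | atom a => exact ⟨1, one_pos, 2, fun n hn => by simp [Prog.len]; omega⟩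
  | seq α β ih1 ih2 =>
    obtain ⟨B, hB, h⟩ := ih1
    obtain ⟨C, hC, h'⟩ := ih2
    exact ⟨B * C, Nat.mul_pos hB hC, (h.mul C).sumset (h'.mul' B)⟩
  | choice α β ih1 ih2 =>
    obtain ⟨B, hB, h⟩ := ih1
    obtain ⟨C, hC, h'⟩ := ih2
    exact ⟨B * C, Nat.mul_pos hB hC, (h.mul C).union (h'.mul' B)⟩
  | star α ih =>
    by_cases hex : ∃ d ∈ (AddSubmonoid.closure α.len : Set ℕ), 0 < d
    · obtain ⟨d, hd, hd0⟩ := hex
      refine ⟨d, hd0, EP.closed hd0 fun n hn => ?_⟩
      exact (AddSubmonoid.closure α.len).add_mem hn hd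
    · push Not at hex
      refine ⟨1, one_pos, 1, fun n hn => ?_⟩
      constructor
      · intro h
        have := hex n h
        omega
      · intro h
        have := hex (n + 1) h
        omega

/-- All programs of the formula have length sets eventually periodic with period `B`. -/
def Gd (B : ℕ) : Form → Prop
  | .letter _ => True
  | .bot => True
  | .neg φ => Gd B φ
  | .conj φ ψ => Gd B φ ∧ Gd B ψ
  | .box α φ => EP B α.len ∧ Gd B φ

theorem Gd.mul {B : ℕ} (c : ℕ) : ∀ {φ : Form}, Gd B φ → Gd (B * c) φ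
  | .letter _, _ => trivial
  | .bot, _ => trivial
  | .neg φ, h => Gd.mul (φ := φ) c h
  | .conj φ ψ, h => ⟨Gd.mul (φ := φ) c h.1, Gd.mul (φ := ψ) c h.2⟩
  | .box _ φ, h => ⟨h.1.mul c, Gd.mul (φ := φ) c h.2⟩

theorem exists_Gd (φ : Form) : ∃ B, 0 < B ∧ Gd B φ := by
  induction φ with
  | letter p => exact ⟨1, one_pos, trivial⟩
  | bot => exact ⟨1, one_pos, trivial⟩
  | neg φ ih => exact ih
  | conj φ ψ ih1 ih2 =>
    obtain ⟨B, hB, h⟩ := ih1
    obtain ⟨C, hC, h'⟩ := ih2
    exact ⟨B * C, Nat.mul_pos hB hC, h.mul C, by rw [mul_comm]; exact h'.mul B⟩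
  | box α φ ih =>
    obtain ⟨B, hB, h⟩ := ih
    obtain ⟨C, hC, h'⟩ := α.exists_EP
    exact ⟨B * C, Nat.mul_pos hB hC, h'.mul' B, h.mul C⟩

/-- Truth in the counting model, for formulas in the letters `0` and `1`. -/
def tr (B : ℕ) : Form → ℕ → Prop
  | .letter p => fun t => (p = 0 ∧ t ≠ 0) ∨ (p = 1 ∧ B ∣ t)
  | .bot => fun _ => False
  | .neg φ => fun t => ¬ tr B φ t
  | .conj φ ψ => fun t => tr B φ t ∧ tr B ψ t
  | .box α φ => fun t => ∀ l ∈ α.len, ∀ t', t' + l = t → tr B φ t'

theorem tr_EP {B : ℕ} : ∀ {φ : Form}, Gd B φ → EP B {t | tr B φ t}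
  | .letter p, _ => by
    refine ⟨1, fun n hn => ?_⟩
    simp only [Set.mem_ofPred_eq, tr]
    have h1 : n ≠ 0 := by omega
    have h2 : n + B ≠ 0 := by omega
    simp [h1]
  | .bot, _ => ⟨0, fun n _ => by simp [tr]⟩
  | .neg φ, h => (tr_EP (φ := φ) h).compl
  | .conj φ ψ, h => (tr_EP (φ := φ) h.1).inter (tr_EP (φ := ψ) h.2)
  | .box α φ, h => by
    have h1 := ((tr_EP (φ := φ) h.2).compl.sumset h.1).compl
    have h2 : {t | tr B (.box α φ) t} = (sumset {t | tr B φ t}ᶜ α.len)ᶜ := by
      ext t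
      simp only [Set.mem_ofPred_eq, tr, Set.mem_compl_iff, sumset]
      constructor
      · rintro h3 ⟨s, hs, l, hl, hst⟩
        exact hs (h3 l hl s hst)
      · intro h3 l hl t' ht'
        by_contra hc
        exact h3 ⟨t', hc, l, hl, ht'⟩
    rw [h2]; exact h1

/-- The counting model: the states are the natural numbers, each positive number sees its
predecessor, letter `0` holds at the non-zero states, letter `1` at the multiples of `B`, and all
other letters hold where `k + t / B` is even. -/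
def cm (B k : ℕ) : Model.{u} where
  W := ULift.{u} ℕ
  rel := fun _ x y => y.down + 1 = x.down
  val := fun p x => (p = 0 ∧ x.down ≠ 0) ∨ (p = 1 ∧ B ∣ x.down) ∨
    (2 ≤ p ∧ (k + x.down / B) % 2 = 0)

theorem den_cm (B k : ℕ) (α : Prog) : ∀ x y : ULift.{u} ℕ,
    α.den (cm.{u} B k) x y ↔ ∃ l ∈ α.len, y.down + l = x.down := by
  induction α with
  | atom a => intro x y; simp [Prog.den, Prog.len, cm]
  | seq α β ih1 ih2 =>
    intro x y
    simp only [Prog.den, Prog.len, sumset]
    constructor
    · rintro ⟨z, h1, h2⟩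
      obtain ⟨l, hl, h3⟩ := (ih1 x z).1 h1
      obtain ⟨l', hl', h4⟩ := (ih2 z y).1 h2
      exact ⟨l + l', ⟨l, hl, l', hl', rfl⟩, by omega⟩
    · rintro ⟨n, ⟨l, hl, l', hl', rfl⟩, h⟩
      exact ⟨⟨y.down + l'⟩, (ih1 _ _).2 ⟨l, hl, by simp; omega⟩,
        (ih2 _ _).2 ⟨l', hl', rfl⟩⟩
  | choice α β ih1 ih2 =>
    intro x y
    simp only [Prog.den, Prog.len, ih1 x y, ih2 x y]
    constructor
    · rintro (⟨l, hl, h⟩ | ⟨l, hl, h⟩)
      · exact ⟨l, Or.inl hl, h⟩
      · exact ⟨l, Or.inr hl, h⟩
    · rintro ⟨l, hl | hl, h⟩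
      · exact Or.inl ⟨l, hl, h⟩
      · exact Or.inr ⟨l, hl, h⟩
  | star α ih =>
    intro x y
    simp only [Prog.den, Prog.len]
    constructor
    · intro h
      induction h with
      | refl => exact ⟨0, (AddSubmonoid.closure α.len).zero_mem, by simp⟩
      | tail _ h2 ih2 =>
        obtain ⟨l, hl, h3⟩ := ih2
        obtain ⟨l', hl', h4⟩ := (ih _ _).1 h2
        exact ⟨l + l', (AddSubmonoid.closure α.len).add_mem hl
          (AddSubmonoid.subset_closure hl'), by omega⟩
    · rintro ⟨l, hl, h⟩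
      have key : ∀ n ∈ AddSubmonoid.closure α.len, ∀ x y : ULift.{u} ℕ, y.down + n = x.down →
          Relation.ReflTransGen (α.den (cm.{u} B k)) x y := by
        intro n hn
        induction hn using AddSubmonoid.closure_induction with
        | mem n hn =>
          intro x y hxy
          exact Relation.ReflTransGen.single ((ih x y).2 ⟨n, hn, hxy⟩)
        | zero =>
          intro x y hxy
          have : x = y := by
            cases x; cases y; simp at hxy ⊢; exact hxy.symm
          rw [this]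
        | add m n _ _ h1 h2 =>
          intro x y hxy
          exact (h1 x ⟨y.down + n⟩ (by simp; omega)).trans (h2 _ y rfl)
      exact key l hl x y h

theorem holds_cm (B k : ℕ) : ∀ (φ : Form), φ.letters ⊆ {0, 1} → ∀ x : ULift.{u} ℕ,
    φ.holds (cm.{u} B k) x ↔ tr B φ x.down
  | .letter p, h, x => by
    have hp : p = 0 ∨ p = 1 := by
      have := h (show p ∈ (Form.letter p).letters from rfl)
      simpa using this
    simp only [Form.holds, cm, tr]
    rcases hp with rfl | rfl <;> simp
  | .bot, _, x => Iff.rfl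
  | .neg φ, h, x => not_congr (holds_cm B k φ h x)
  | .conj φ ψ, h, x => and_congr
      (holds_cm B k φ (fun _ hx => h (Or.inl hx)) x)
      (holds_cm B k ψ (fun _ hx => h (Or.inr hx)) x)
  | .box α φ, h, x => by
    simp only [Form.holds, tr]
    constructor
    · intro h1 l hl t' ht'
      have := h1 ⟨t'⟩ ((den_cm B k α x ⟨t'⟩).2 ⟨l, hl, ht'⟩)
      exact (holds_cm B k φ h ⟨t'⟩).1 this
    · intro h1 y hy
      obtain ⟨l, hl, h2⟩ := (den_cm B k α x y).1 hy
      exact (holds_cm B k φ h y).2 (h1 l hl y.down h2)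

/-! ### The two formulas -/

/-- The only atomic program used. -/
def pa : Prog := .atom 0

/-- The letter `p`. -/
def lp : Form := .letter 0

/-- The letter `e`. -/
def le : Form := .letter 1

/-- `x` is flipped along every step out of a state satisfying `e`, and kept along all others. -/
def flip (x : Form) : Form :=
  .conj (le.imp (.conj (x.imp (.box pa (.neg x))) ((Form.neg x).imp (.box pa x))))
    ((Form.neg le).imp (.conj (x.imp (.box pa x)) ((Form.neg x).imp (.box pa (.neg x)))))

/-- The formula on the left; `r` is the letter `2`. -/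
def left : Form :=
  .conj (.letter 2) (.box (.star pa) (.conj (flip (.letter 2)) ((Form.letter 2).imp lp)))

/-- The formula on the right; `s` is the letter `3`. -/
def right : Form :=
  (Form.conj (.letter 3) (.box (.star pa) (flip (.letter 3)))).imp
    (.box (.star pa) ((Form.letter 3).imp lp))

theorem holds_flip (M : Model.{u}) (x : Form) (w : M.W) :
    (flip x).holds M w ↔ ∀ v, M.rel 0 w v → (x.holds M v ↔ (x.holds M w ↔ ¬ M.val 1 w)) := by
  simp only [flip, Form.holds, holds_imp, pa, le, Prog.den]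
  constructor
  · rintro ⟨h1, h2⟩ v hv
    by_cases he : M.val 1 w
    · by_cases hx : x.holds M w
      · have := (h1 he).1 hx v hv
        tauto
      · have := (h1 he).2 hx v hv
        tauto
    · by_cases hx : x.holds M w
      · have := (h2 he).1 hx v hv
        tauto
      · have := (h2 he).2 hx v hv
        tauto
  · intro h
    refine ⟨fun he => ⟨fun hx v hv => ?_, fun hx v hv => ?_⟩,
      fun he => ⟨fun hx v hv => ?_, fun hx v hv => ?_⟩⟩ <;>
    · have := h v hv
      tauto

theorem valid_left_right : (left.imp right).Valid := by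
  intro M w
  simp only [left, right, holds_imp, Form.holds]
  rintro ⟨hr, h1⟩ ⟨hs, h2⟩ v hv
  have key : (M.val 2 v ↔ M.val 3 v) := by
    have hv' : Relation.ReflTransGen (pa.den M) w v := hv
    clear hv
    induction hv' with
    | refl => exact ⟨fun _ => hs, fun _ => hr⟩
    | tail h3 h4 ih =>
      have h5 := (holds_flip M _ _).1 (h1 _ h3).1 _ h4
      have h6 := (holds_flip M _ _).1 (h2 _ h3) _ h4
      simp only [Form.holds] at h5 h6
      exact h5.trans (Iff.trans (iff_congr ih Iff.rfl) h6.symm)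
  intro h3
  exact (h1 v hv).2 (key.2 h3)

theorem flip_cm {B k : ℕ} (hB : 0 < B) {x : Form} {y v : ULift.{u} ℕ}
    (h1 : x.holds (cm.{u} B k) y ↔ (k + y.down / B) % 2 = 0)
    (h2 : x.holds (cm.{u} B k) v ↔ (k + v.down / B) % 2 = 0)
    (hv : (cm.{u} B k).rel 0 y v) :
    (x.holds (cm.{u} B k) v ↔ (x.holds (cm.{u} B k) y ↔ ¬ (cm.{u} B k).val 1 y)) := by
  have h3 : v.down + 1 = y.down := hv
  have h4 : (cm.{u} B k).val 1 y ↔ B ∣ y.down := by simp [cm]
  rw [h1, h2, h4]
  by_cases hd : B ∣ y.down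
  · obtain ⟨q, hq⟩ := hd
    have hq0 : 0 < q := by
      rcases Nat.eq_zero_or_pos q with h | h
      · rw [h] at hq; omega
      · exact h
    have h5 : y.down / B = q := by rw [hq, Nat.mul_div_cancel_left q hB]
    have h6 : v.down / B = q - 1 := by
      rw [Nat.div_eq_iff hB]
      obtain ⟨q', rfl⟩ : ∃ q', q = q' + 1 := ⟨q - 1, by omega⟩
      have : B * (q' + 1) = q' * B + B := by ring
      simp only [Nat.add_sub_cancel]
      omega
    have h7 : B ∣ y.down := ⟨q, hq⟩
    rw [h5, h6]
    simp only [h7, not_true_eq_false, iff_false]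
    omega
  · have h5 : v.down / B = y.down / B := by
      rw [← h3, Nat.succ_div]
      rw [h3, if_neg hd]
      rfl
    rw [h5]
    simp [hd]

/-- For odd `k` the left formula holds at the state `k * B` of the counting model. -/
theorem left_cm {B k : ℕ} (hB : 0 < B) (hk : k % 2 = 1) :
    left.holds (cm.{u} B k) ⟨B * k⟩ := by
  have hval : ∀ x : ULift.{u} ℕ, (cm.{u} B k).val 2 x ↔ (k + x.down / B) % 2 = 0 := by
    intro x; simp [cm]
  refine ⟨?_, ?_⟩
  · show (cm.{u} B k).val 2 _
    rw [hval]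
    simp only [Nat.mul_div_cancel_left k hB]
    omega
  · intro y hy
    obtain ⟨l, _, hy⟩ := (den_cm B k _ _ y).1 hy
    refine ⟨(holds_flip _ _ _).2 fun v hv => ?_, (holds_imp _ _ _ _).2 fun h => ?_⟩
    · exact flip_cm hB (hval y) (hval v) hv
    · show (cm.{u} B k).val 0 y
      refine Or.inl ⟨rfl, fun h0 => ?_⟩
      have := (hval y).1 h
      rw [h0] at this
      simp at this
      omega

/-- For even positive `k` the right formula fails at the state `k * B` of the counting model. -/
theorem not_right_cm {B k : ℕ} (hB : 0 < B) (hk : k % 2 = 0) :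
    ¬ right.holds (cm.{u} B k) ⟨B * k⟩ := by
  have hval : ∀ x : ULift.{u} ℕ, (cm.{u} B k).val 3 x ↔ (k + x.down / B) % 2 = 0 := by
    intro x; simp [cm]
  simp only [right, holds_imp]
  intro h
  have h1 : (Form.conj (.letter 3) (.box (.star pa) (flip (.letter 3)))).holds
      (cm.{u} B k) ⟨B * k⟩ := by
    refine ⟨?_, ?_⟩
    · show (cm.{u} B k).val 3 _
      rw [hval]
      simp only [Nat.mul_div_cancel_left k hB]
      omega
    · intro y _
      exact (holds_flip _ _ _).2 fun v hv => flip_cm hB (hval y) (hval v) hv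
  have h2 := h h1 ⟨0⟩ ((den_cm B k _ _ _).2 ⟨B * k, ?_, by simp⟩)
  · rw [holds_imp] at h2
    have h3 : (Form.letter 3).holds (cm.{u} B k) ⟨0⟩ := by
      show (cm.{u} B k).val 3 _
      rw [hval]
      simp
      omega
    have h4 : (cm.{u} B k).val 0 ⟨0⟩ := h2 h3
    simp [cm] at h4
  · show B * k ∈ AddSubmonoid.closure (pa.len)
    have h1 : (1 : ℕ) ∈ AddSubmonoid.closure (pa.len) :=
      AddSubmonoid.subset_closure (by simp [pa, Prog.len])
    have := (AddSubmonoid.closure (pa.len)).nsmul_mem h1 (B * k)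
    simpa using this

theorem voc_common : left.letters ∩ right.letters ⊆ {0, 1} := by
  intro n hn
  simp [left, right, Form.letters, Form.imp, flip, le, lp, pa] at hn ⊢
  omega

/-- **Main result.** There are test-free formulas `φ` and `ψ` with `φ → ψ` valid such that no
test-free formula over the common vocabulary of `φ` and `ψ` is an interpolant. -/
theorem result : ∃ φ ψ : Form, (φ.imp ψ).Valid.{u} ∧
    ¬ ∃ θ : Form, θ.letters ⊆ φ.letters ∩ ψ.letters ∧ θ.atoms ⊆ φ.atoms ∩ ψ.atoms ∧
      (φ.imp θ).Valid.{u} ∧ (θ.imp ψ).Valid.{u} := by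
  refine ⟨left, right, valid_left_right, ?_⟩
  rintro ⟨θ, hl, -, h1, h2⟩
  have hl' := hl.trans voc_common
  obtain ⟨B, hB, hG⟩ := exists_Gd θ
  obtain ⟨N, hN⟩ := tr_EP hG
  have h3 : ∀ k, k % 2 = 1 → tr B θ (B * k) := fun k hk =>
    (holds_cm.{u} B k θ hl' ⟨B * k⟩).1 ((holds_imp _ _ _ _).1 (h1 _ _) (left_cm hB hk))
  have h4 : ∀ k, k % 2 = 0 → ¬ tr B θ (B * k) := fun k hk h =>
    not_right_cm.{u} hB hk ((holds_imp _ _ _ _).1 (h2 _ _)
      ((holds_cm.{u} B k θ hl' ⟨B * k⟩).2 h))
  have h5 := (hN (B * (2 * N + 1)) (by nlinarith)).1 (h3 (2 * N + 1) (by omega))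
  have h6 : B * (2 * N + 1) + B = B * (2 * N + 2) := by ring
  rw [Set.mem_ofPred_eq, h6] at h5
  exact h4 (2 * N + 2) (by omega) h5

end Pool.Agent.Results.MP_7a64d7_lc.NoTestFreeInterpolant
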